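import Mathlib
import Pool.Agent.H20.CMC.Main

namespace Pool.Agent.Results.MP_7a5138_ag.CMPoints

open Pool.Agent.H20.CMC

/-- Crystallinity of local systems is tested at unramified points with dense reductions, in particular
at the CM points of Shimura varieties of abelian type (`p` odd); the first clause, on finite covers, is
unconditional. -/
theorem result (p e : ℕ) (hp : p.Prime) (he1 : 1 ≤ e) (he : e + 1 < p) :
    (∀ (A B : CommRingCat.{0}) (I : GrpCat.{0}) (t : A) (f : A →+* B) (P : Ideal B)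
      (act : I →* (B →+* B)) (J : Subgroup I) (S : ∀ O : CommRingCat.{0}, (A →+* O) → Prop),
      Good p e t → Inert t f P act → J.Normal → DensePts t S →
      (∀ O x, S O x → Unif (x t) → InertiaIn t f P act J x) → J = ⊤) ∧
    ∀ T : Theory p e,
      (∀ (X : T.Sch) (L : T.Loc X)
        (S : ∀ (U : T.Aff X) (O : CommRingCat.{0}), (T.A X U →+* O) → Prop),
        (∀ U, DensePts (T.t X U) (S U)) →
        (∀ U O x, S U O x → Unif (x (T.t X U)) → T.CrysAt X U L O x) → T.Crys X L) ∧
      ∀ X : T.Sch, T.Shim X → ∀ L : T.Loc X,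
        (∀ U O x, T.CM X U O x → T.CrysAt X U L O x) → T.Crys X L := by
  have h2 : ∀ T : Theory p e, ∀ (X : T.Sch) (L : T.Loc X)
        (S : ∀ (U : T.Aff X) (O : CommRingCat.{0}), (T.A X U →+* O) → Prop),
        (∀ U, DensePts (T.t X U) (S U)) →
        (∀ U O x, S U O x → Unif (x (T.t X U)) → T.CrysAt X U L O x) → T.Crys X L := by
    intro T X L S hd hS
    have one : ∀ U : T.Aff X, ¬ (T.t X U) ∣ 1 := fun U h =>
      (T.good X U).2.2.2.1.not_unit (isUnit_of_dvd_one h)
    obtain ⟨U0⟩ := T.nonempty X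
    obtain ⟨O0, x0, hx0, hu0, _⟩ := hd U0 1 (one U0)
    have hdR := T.rigidity X U0 L O0 x0 (hS U0 O0 x0 hx0 hu0)
    obtain ⟨U, B, I, D, f, P, act, N, τ, hin, hb, ha⟩ := T.monodromy X L hdR
    obtain ⟨O1, x1, hx1, hu1, _⟩ := hd U 1 (one U)
    have hN := (ha O1 x1 hu1 (hS U O1 x1 hx1 hu1)).1
    have hJ := cover_thm p e hp he1 he (T.A X U) B I (T.t X U) f P act τ.ker (S U) (T.good X U)
      hin inferInstance (hd U) (fun O x hx hu => (ha O x hu (hS U O x hx hu)).2)
    refine T.purity X U L (hb hN ?_)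
    ext g : 1
    have : g ∈ τ.ker := by rw [hJ]; trivial
    exact MonoidHom.mem_ker.1 this
  exact ⟨cover_thm p e hp he1 he, fun T => ⟨h2 T, fun X hX L hL =>
    h2 T X L (T.CM X) (T.lifts X hX) (fun U O x hx _ => hL U O x hx)⟩⟩

end Pool.Agent.Results.MP_7a5138_ag.CMPoints
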